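import Pool.Agent.V5helper49.LR.Stm

/-!
# Project LR: decoupling all primes
-/

set_option autoImplicit false

namespace Pool.Agent.V5helper47.LR

open Finset
open Pool.Agent.V5helper49.LR

lemma cc_nonneg (T B : Finset ℕ) (H D p : ℕ) : 0 ≤ cc T B H D p := by
  unfold cc
  split_ifs <;> positivity

lemma sum_erase (f : ℕ → ℝ) (l : List ℕ) (p : ℕ) (hp : p ∈ l) :
    (l.map f).sum = f p + ((l.erase p).map f).sum := by
  have h := ((List.perm_cons_erase hp).map f).sum_eq
  rw [List.map_cons, List.sum_cons] at h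
  exact h

lemma mass_erase (B : Finset ℕ) (H D w : ℕ) (l : List ℕ) (p : ℕ) (hp : p ∈ l) (hB : ∀ q ∈ B, w ≤ q)
    (hw : 8 * (H + 1) ≤ w) : mass B H D l - 1 / 8 ≤ mass B H D (l.erase p) := by
  have hf : ∀ f : ℕ → ℝ, f p ≤ 1 / 8 → (l.map f).sum - 1 / 8 ≤ ((l.erase p).map f).sum := by
    intro f hfp
    rw [sum_erase f l p hp]
    linarith
  unfold mass
  refine hf _ ?_
  beta_reduce
  split_ifs with h
  · have h1 : w ≤ p := hB p h.1
    have h2 : (8 : ℝ) ≤ p := by
      have h3 : 8 ≤ p := by omega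
      exact_mod_cast h3
    exact one_div_le_one_div_of_le (by norm_num) h2
  · norm_num

theorem t_JNT (hPERM : S_PERM) (hPROD : S_PROD) (hSWP : S_SWP) : Pool.Agent.V5helper49.LR.S_JNT := by
  intro T V B H w D hreg l hnd hpos hT hmass
  have key : ∀ U : Finset ℕ, U ⊆ l.toFinset →
      J T V B ∅ D l ∅ ∅ ≤ (∏ p ∈ U, (1 + cc T B H D p)) * J T V B U D l ∅ ∅ := by
    intro U
    induction U using Finset.induction_on with
    | empty =>
      intro _
      rw [prod_empty, one_mul]
    | insert p U hpU ih =>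
      intro hsub
      have hpl : p ∈ l := List.mem_toFinset.1 (hsub (mem_insert_self p U))
      have h1 := ih (fun q hq => hsub (mem_insert_of_mem hq))
      have hperm : l.Perm (p :: l.erase p) := List.perm_cons_erase hpl
      have h2 : J T V B U D l ∅ ∅ = J T V B U D (p :: l.erase p) ∅ ∅ :=
        hPERM T V B U D l (p :: l.erase p) hperm ∅ ∅
      have h3 : J T V B (insert p U) D l ∅ ∅ = J T V B (insert p U) D (p :: l.erase p) ∅ ∅ :=
        hPERM T V B (insert p U) D l (p :: l.erase p) hperm ∅ ∅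
      have h4 : (9 : ℝ) / 2 ≤ mass B H D (l.erase p) := by
        have := mass_erase B H D w l p hpl hreg.B_ge hreg.w_ge
        linarith
      have h5 : J T V B U D (p :: l.erase p) ∅ ∅ ≤
          (1 + cc T B H D p) * J T V B (insert p U) D (p :: l.erase p) ∅ ∅ :=
        hSWP T V B U H w D hreg p (l.erase p) (hpos p hpl)
          (fun q hq => hpos q (List.mem_of_mem_erase hq)) hpU hnd.not_mem_erase (hT p hpl) h4
      have h6 : 0 ≤ ∏ q ∈ U, (1 + cc T B H D q) :=
        prod_nonneg fun q _ => by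
          have := cc_nonneg T B H D q
          linarith
      rw [prod_insert hpU]
      calc J T V B ∅ D l ∅ ∅ ≤ (∏ q ∈ U, (1 + cc T B H D q)) * J T V B U D l ∅ ∅ := h1
        _ ≤ (∏ q ∈ U, (1 + cc T B H D q)) * ((1 + cc T B H D p) * J T V B (insert p U) D l ∅ ∅) := by
            refine mul_le_mul_of_nonneg_left ?_ h6
            rw [h2, h3]
            exact h5
        _ = (1 + cc T B H D p) * (∏ q ∈ U, (1 + cc T B H D q)) * J T V B (insert p U) D l ∅ ∅ := by
            ring
  have h := key l.toFinset (Subset.refl _)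
  rw [List.prod_toFinset _ hnd,
    hPROD T V B l.toFinset D l (fun p hp => List.mem_toFinset.2 hp) ∅ ∅] at h
  rw [pow_two]
  exact h

end Pool.Agent.V5helper47.LR
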